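import Pool.Agent.Helper94.LK.Spec

/-!
MP_e4073d_mp : part ASM, assembly of the double eigenvalue of the kernel operator.
-/

open MeasureTheory Filter Topology Set
open scoped ENNReal InnerProductSpace

namespace Pool.Agent.Helper94.LK.ASMPart

/-! ### abstract part -/

section abs

variable {H : Type} [NormedAddCommGroup H] [InnerProductSpace ℝ H] (J : H →L[ℝ] H)

/-- the projection on the `e`-eigenspace of the involution `J` -/
noncomputable def Pr (e : ℝ) : H →L[ℝ] H := (1 / 2 : ℝ) • (ContinuousLinearMap.id ℝ H + e • J)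

theorem Pr_apply (e : ℝ) (f : H) : Pr J e f = (1 / 2 : ℝ) • (f + e • J f) := by
  simp [Pr]

variable {J}

theorem J_Pr {e : ℝ} (he : e * e = 1) (hJ : ∀ f, J (J f) = f) (f : H) :
    J (Pr J e f) = e • Pr J e f := by
  rw [Pr_apply, map_smul, map_add, map_smul, hJ, smul_comm e, smul_add e, smul_smul e e, he,
    one_smul, add_comm]

theorem Pr_of_eig {e : ℝ} (he : e * e = 1) {f : H} (hf : J f = e • f) : Pr J e f = f := by
  rw [Pr_apply, hf, smul_smul, he, one_smul, ← two_smul ℝ f, smul_smul]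
  norm_num

theorem Pr_Pr {e : ℝ} (he : e * e = 1) (hJ : ∀ f, J (J f) = f) (f : H) :
    Pr J e (Pr J e f) = Pr J e f := Pr_of_eig he (J_Pr he hJ f)

theorem Pr_symm (e : ℝ) (hJs : ∀ f h, ⟪J f, h⟫_ℝ = ⟪f, J h⟫_ℝ) (f h : H) :
    ⟪Pr J e f, h⟫_ℝ = ⟪f, Pr J e h⟫_ℝ := by
  rw [Pr_apply, Pr_apply]
  simp only [inner_add_left, inner_add_right, real_inner_smul_left, real_inner_smul_right, hJs]

theorem Pr_norm {e : ℝ} (he : e * e = 1) (hJ : ∀ f, J (J f) = f)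
    (hJs : ∀ f h, ⟪J f, h⟫_ℝ = ⟪f, J h⟫_ℝ) (f : H) : ‖Pr J e f‖ ≤ ‖f‖ := by
  have h1 : ‖Pr J e f‖ ^ 2 ≤ ‖Pr J e f‖ * ‖f‖ := by
    rw [← real_inner_self_eq_norm_sq, ← Pr_symm e hJs, Pr_Pr he hJ]
    exact real_inner_le_norm _ _
  by_cases h0 : ‖Pr J e f‖ = 0
  · rw [h0]; exact norm_nonneg _
  · have h2 : 0 < ‖Pr J e f‖ := lt_of_le_of_ne (norm_nonneg _) (Ne.symm h0)
    nlinarith

/-- `P T P` -/
noncomputable def cut (J : H →L[ℝ] H) (e : ℝ) (T : H →L[ℝ] H) : H →L[ℝ] H :=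
  (Pr J e).comp (T.comp (Pr J e))

theorem cut_apply (e : ℝ) (T : H →L[ℝ] H) (f : H) : cut J e T f = Pr J e (T (Pr J e f)) := rfl

theorem cut_form (e : ℝ) (hJs : ∀ f h, ⟪J f, h⟫_ℝ = ⟪f, J h⟫_ℝ) (T : H →L[ℝ] H) (f h : H) :
    ⟪cut J e T f, h⟫_ℝ = ⟪T (Pr J e f), Pr J e h⟫_ℝ := by
  rw [cut_apply, Pr_symm e hJs]

theorem cut_add (e : ℝ) (S T : H →L[ℝ] H) : cut J e (S + T) = cut J e S + cut J e T := by
  ext f; simp [cut_apply]

theorem cut_sub (e : ℝ) (S T : H →L[ℝ] H) : cut J e (S - T) = cut J e S - cut J e T := by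
  ext f; simp [cut_apply]

theorem cut_symm (e : ℝ) (hJs : ∀ f h, ⟪J f, h⟫_ℝ = ⟪f, J h⟫_ℝ) {T : H →L[ℝ] H}
    (hT : ∀ f h, ⟪T f, h⟫_ℝ = ⟪f, T h⟫_ℝ) (f h : H) :
    ⟪cut J e T f, h⟫_ℝ = ⟪f, cut J e T h⟫_ℝ := by
  rw [cut_form e hJs, hT, cut_apply, ← Pr_symm e hJs]

theorem cut_compact (e : ℝ) {T : H →L[ℝ] H} (hT : IsCompactOperator T) :
    IsCompactOperator (cut J e T) := by
  have h1 : IsCompactOperator (T ∘ (Pr J e)) := hT.comp_clm (Pr J e)
  exact h1.clm_comp (Pr J e)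

theorem cut_norm {e : ℝ} (he : e * e = 1) (hJ : ∀ f, J (J f) = f)
    (hJs : ∀ f h, ⟪J f, h⟫_ℝ = ⟪f, J h⟫_ℝ) (T : H →L[ℝ] H) : ‖cut J e T‖ ≤ ‖T‖ := by
  refine ContinuousLinearMap.opNorm_le_bound _ (norm_nonneg _) fun f => ?_
  rw [cut_apply]
  refine (Pr_norm he hJ hJs _).trans ((T.le_opNorm _).trans ?_)
  exact mul_le_mul_of_nonneg_left (Pr_norm he hJ hJs _) (norm_nonneg _)

theorem cut_bound {e : ℝ} (he : e * e = 1) (hJ : ∀ f, J (J f) = f)
    (hJs : ∀ f h, ⟪J f, h⟫_ℝ = ⟪f, J h⟫_ℝ) {T : H →L[ℝ] H} {c : ℝ} (hc : 0 ≤ c)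
    (hT : ∀ f, J f = e • f → ⟪T f, f⟫_ℝ ≤ c * ‖f‖ ^ 2) (f : H) :
    ⟪cut J e T f, f⟫_ℝ ≤ c * ‖f‖ ^ 2 := by
  rw [cut_form e hJs]
  refine (hT _ (J_Pr he hJ f)).trans (mul_le_mul_of_nonneg_left ?_ hc)
  exact pow_le_pow_left₀ (norm_nonneg _) (Pr_norm he hJ hJs f) 2

theorem cut_of_eig {e : ℝ} (he : e * e = 1) (hJs : ∀ f h, ⟪J f, h⟫_ℝ = ⟪f, J h⟫_ℝ)
    (T : H →L[ℝ] H) {f : H} (hf : J f = e • f) : ⟪cut J e T f, f⟫_ℝ = ⟪T f, f⟫_ℝ := by
  rw [cut_form e hJs, Pr_of_eig he hf]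

theorem eig_of_cut {e : ℝ} (he : e * e = 1) (hJ : ∀ f, J (J f) = f) {T : H →L[ℝ] H}
    (hTJ : ∀ f, T (J f) = J (T f)) {μ : ℝ} (hμ : μ ≠ 0) {f : H} (hf : cut J e T f = μ • f) :
    J f = e • f ∧ T f = μ • f := by
  have h1 : f = μ⁻¹ • cut J e T f := by rw [hf, smul_smul, inv_mul_cancel₀ hμ, one_smul]
  have h2 : J f = e • f := by
    rw [h1, map_smul, cut_apply, J_Pr he hJ, smul_comm]
  refine ⟨h2, ?_⟩
  rw [cut_apply, Pr_of_eig he h2] at hf
  have h3 : J (T f) = e • T f := by rw [← hTJ, h2, map_smul]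
  rwa [Pr_of_eig he h3] at hf

theorem orth (hJs : ∀ f h, ⟪J f, h⟫_ℝ = ⟪f, J h⟫_ℝ) {f g : H}
    (hf : J f = (-1 : ℝ) • f) (hg : J g = (1 : ℝ) • g) : ⟪f, g⟫_ℝ = 0 := by
  have h := hJs f g
  rw [hf, hg, real_inner_smul_left, real_inner_smul_right] at h
  linarith

end abs

/-! ### functions -/

theorem inner_X (f h : X) : ⟪f, h⟫_ℝ = ∫ s, f s * h s := by
  rw [L2.inner_def]
  refine integral_congr_ae (Eventually.of_forall fun s => ?_)
  simp [mul_comm]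

theorem norm_X (f : X) : ‖f‖ ^ 2 = N f := by
  rw [← real_inner_self_eq_norm_sq, inner_X]
  unfold N
  refine integral_congr_ae (Eventually.of_forall fun s => ?_)
  simp [sq]

theorem N_congr {f f' : ℝ → ℝ} (h : f =ᵐ[volume] f') : N f = N f' := by
  unfold N
  refine integral_congr_ae ?_
  filter_upwards [h] with s hs
  rw [hs]

theorem Bil_congr {G : ℝ → ℝ → ℝ} {f f' h h' : ℝ → ℝ} (hf : f =ᵐ[volume] f')
    (hh : h =ᵐ[volume] h') : Bil G f h = Bil G f' h' := by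
  unfold Bil
  have h1 : ∀ᵐ z : ℝ × ℝ, f z.1 = f' z.1 :=
    (Measure.quasiMeasurePreserving_fst (μ := (volume : Measure ℝ)) (ν := (volume : Measure ℝ))).ae hf
  have h2 : ∀ᵐ z : ℝ × ℝ, h z.2 = h' z.2 :=
    (Measure.quasiMeasurePreserving_snd (μ := (volume : Measure ℝ)) (ν := (volume : Measure ℝ))).ae hh
  refine integral_congr_ae ?_
  filter_upwards [h1, h2] with z hz1 hz2
  rw [hz1, hz2]

theorem Bil_comm {G : ℝ → ℝ → ℝ} (hG : ∀ s s', G s s' = G s' s) (f h : ℝ → ℝ) :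
    Bil G f h = Bil G h f := by
  unfold Bil
  have h1 := integral_prod_swap (μ := (volume : Measure ℝ)) (ν := (volume : Measure ℝ))
    (f := fun z : ℝ × ℝ => G z.1 z.2 * (h z.1 * f z.2))
  rw [Measure.volume_eq_prod, ← h1]
  refine integral_congr_ae (Eventually.of_forall fun z => ?_)
  simp only [Prod.fst_swap, Prod.snd_swap]
  rw [hG z.2 z.1]; ring

theorem Bil_neg {G : ℝ → ℝ → ℝ} (hG : ∀ s s', G (-s) (-s') = G s s') (f h : ℝ → ℝ) :
    Bil G (fun s => f (-s)) h = Bil G f (fun s => h (-s)) := by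
  unfold Bil
  rw [← integral_neg_eq_self (fun z : ℝ × ℝ => G z.1 z.2 * (f z.1 * h (-z.2))) volume]
  refine integral_congr_ae (Eventually.of_forall fun z => ?_)
  simp only [Prod.fst_neg, Prod.snd_neg, neg_neg]
  rw [hG]

/-- reflection -/
noncomputable def J : X →L[ℝ] X :=
  (Lp.compMeasurePreservingₗᵢ ℝ (fun s : ℝ => -s)
    (Measure.measurePreserving_neg (volume : Measure ℝ))).toContinuousLinearMap

theorem J_coe (f : X) : (J f : ℝ → ℝ) =ᵐ[volume] fun s => f (-s) :=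
  Lp.coeFn_compMeasurePreserving f (Measure.measurePreserving_neg (volume : Measure ℝ))

theorem ae_neg {p : ℝ → Prop} (h : ∀ᵐ s, p s) : ∀ᵐ s, p (-s) :=
  (Measure.measurePreserving_neg (volume : Measure ℝ)).quasiMeasurePreserving.ae h

theorem J_J (f : X) : J (J f) = f := by
  apply Lp.ext
  have h1 := J_coe (J f)
  have h2 := ae_neg (J_coe f)
  filter_upwards [h1, h2] with s hs1 hs2
  rw [hs1, hs2, neg_neg]

theorem J_symm (f h : X) : ⟪J f, h⟫_ℝ = ⟪f, J h⟫_ℝ := by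
  rw [inner_X, inner_X]
  have h1 : ∫ s, (J f : ℝ → ℝ) s * h s = ∫ s, f (-s) * h s := by
    refine integral_congr_ae ?_
    filter_upwards [J_coe f] with s hs
    rw [hs]
  have h2 : ∫ s, f s * (J h : ℝ → ℝ) s = ∫ s, f s * h (-s) := by
    refine integral_congr_ae ?_
    filter_upwards [J_coe h] with s hs
    rw [hs]
  rw [h1, h2, ← integral_neg_eq_self (fun s => f s * h (-s)) volume]
  simp

theorem J_toLp {f : ℝ → ℝ} (hf : MemLp f 2 volume) {e : ℝ} (h : ∀ s, f (-s) = e * f s) :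
    J (hf.toLp f) = e • hf.toLp f := by
  apply Lp.ext
  have h1 := J_coe (hf.toLp f)
  have h2 := hf.coeFn_toLp
  have h3 := ae_neg h2
  have h4 := Lp.coeFn_smul e (hf.toLp f)
  filter_upwards [h1, h2, h3, h4] with s hs1 hs2 hs3 hs4
  rw [hs1, hs4, hs3, Pi.smul_apply, hs2, h, smul_eq_mul]

/-- representative which is pointwise even or odd -/
theorem exists_rep {e : ℝ} (he : e * e = 1) {f : X} (hf : J f = e • f) :
    ∃ F : ℝ → ℝ, MemLp F 2 volume ∧ (∀ s, F (-s) = e * F s) ∧ (f : ℝ → ℝ) =ᵐ[volume] F := by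
  have h0 : (f : ℝ → ℝ) =ᵐ[volume] fun s => (f s + e * f (-s)) / 2 := by
    have h1 := J_coe f
    have h4 := Lp.coeFn_smul e f
    rw [← hf] at h4
    filter_upwards [h1, h4] with s hs1 hs4
    rw [hs1, Pi.smul_apply, smul_eq_mul] at hs4
    rw [hs4, ← mul_assoc, he]; ring
  refine ⟨fun s => (f s + e * f (-s)) / 2, ?_, ?_, h0⟩
  · exact (memLp_congr_ae h0).1 (Lp.memLp f)
  · intro s
    simp only [neg_neg]
    have : e * ((f s + e * f (-s)) / 2) = (e * f s + (e * e) * f (-s)) / 2 := by ring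
    rw [this, he]; ring

/-! ### the operators -/

theorem GC_comm (γ : ℝ → E2) (s s' : ℝ) : GC γ s s' = GC γ s' s := by
  unfold GC; rw [norm_sub_rev]

theorem GS_comm (s s' : ℝ) : GS s s' = GS s' s := by
  unfold GS; rw [abs_sub_comm]

theorem T_symm {G : ℝ → ℝ → ℝ} (hG : ∀ s s', G s s' = G s' s) {T : X →L[ℝ] X}
    (hT : ∀ f h : X, ⟪T f, h⟫_ℝ = Bil G f h) (f h : X) : ⟪T f, h⟫_ℝ = ⟪f, T h⟫_ℝ := by
  rw [hT, Bil_comm hG, ← hT, real_inner_comm]

theorem T_J {G : ℝ → ℝ → ℝ} (hG : ∀ s s', G (-s) (-s') = G s s') {T : X →L[ℝ] X}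
    (hT : ∀ f h : X, ⟪T f, h⟫_ℝ = Bil G f h) (f : X) : T (J f) = J (T f) := by
  refine ext_inner_right ℝ fun h => ?_
  rw [hT, J_symm, hT, Bil_congr (J_coe f) (EventuallyEq.refl _ _),
    Bil_congr (G := G) (EventuallyEq.refl _ (f : ℝ → ℝ)) (J_coe h), Bil_neg hG]

theorem form_toLp {G : ℝ → ℝ → ℝ} {T : X →L[ℝ] X} (hT : ∀ f h : X, ⟪T f, h⟫_ℝ = Bil G f h)
    {f h : ℝ → ℝ} (hf : MemLp f 2 volume) (hh : MemLp h 2 volume) :
    ⟪T (hf.toLp f), hh.toLp h⟫_ℝ = Bil G f h := by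
  rw [hT]; exact Bil_congr hf.coeFn_toLp hh.coeFn_toLp

theorem norm_toLp {f : ℝ → ℝ} (hf : MemLp f 2 volume) : ‖hf.toLp f‖ ^ 2 = N f := by
  rw [norm_X]; exact N_congr hf.coeFn_toLp

/-- bound for the form on the functions of one parity -/
theorem form_parity {G : ℝ → ℝ → ℝ} {T : X →L[ℝ] X} (hT : ∀ f h : X, ⟪T f, h⟫_ℝ = Bil G f h)
    {e c : ℝ} (he : e * e = 1)
    (h : ∀ F : ℝ → ℝ, MemLp F 2 volume → (∀ s, F (-s) = e * F s) → Bil G F F ≤ c * N F)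
    (f : X) (hf : J f = e • f) : ⟪T f, f⟫_ℝ ≤ c * ‖f‖ ^ 2 := by
  obtain ⟨F, hF, hF2, hF3⟩ := exists_rep he hf
  rw [hT, norm_X, Bil_congr hF3 hF3, N_congr hF3]
  exact h F hF hF2

theorem asm_thm (hOP : S_OP) (hHSC : S_HSC) (hCROSS : S_CROSS) (hGEO : S_GEO) (hKB : S_KB)
    (hEHS : S_EHS) (hCONT : S_CONT) (hTENT : S_TENT) (hPOS : S_POS) (hONE : S_ONE) (hUP : S_UP)
    (hLO : S_LO) (hA : S_THREEA) (hB : S_THREEB) : S_ASM := by
  obtain ⟨v, μ, ν₀, hv, hNv, hvμ, hμ, hν₀, hv2⟩ := hPOS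
  obtain ⟨p₀, hp₀, hp₀1, L₁, hL₁⟩ := hB (1 / 10) (by norm_num)
  obtain ⟨L₂, hL₂⟩ := hONE p₀ hp₀
  set ν : ℝ := max ν₀ (1 / 2) with hν
  have hνμ : ν < μ := max_lt hν₀ hμ
  have hν2 : 1 / 2 ≤ ν := le_max_right _ _
  have hv3 : ∀ f : ℝ → ℝ, MemLp f 2 volume → ∫ s, f s * v s = 0 → Bil (GC bnd) f f ≤ ν * N f := by
    intro f hf h0
    refine (hv2 f hf h0).trans (mul_le_mul_of_nonneg_right (le_max_left _ _) ?_)
    exact integral_nonneg fun s => sq_nonneg _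
  set δ : ℝ := (μ - ν) / 2 with hδ
  have hδ0 : 0 < δ := by rw [hδ]; linarith
  obtain ⟨L₃, hL₃⟩ := hUP v ν hv hν2 hv3 δ hδ0
  obtain ⟨L₄, hL₄⟩ := hLO v hv hNv δ hδ0
  set L : ℝ := max 1 (max (max L₁ L₂) (max L₃ L₄)) with hL
  have hL0 : 0 < L := lt_of_lt_of_le one_pos (le_max_left _ _)
  have hLL1 : L₁ ≤ L := ((le_max_left _ _).trans (le_max_left _ _)).trans (le_max_right _ _)
  have hLL2 : L₂ ≤ L := ((le_max_right _ _).trans (le_max_left _ _)).trans (le_max_right _ _)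
  have hLL3 : L₃ ≤ L := ((le_max_left _ _).trans (le_max_right _ _)).trans (le_max_right _ _)
  have hLL4 : L₄ ≤ L := ((le_max_right _ _).trans (le_max_right _ _)).trans (le_max_right _ _)
  obtain ⟨f₁, f₂, hf₁, hf₂, he₁, he₂, hind, hform⟩ := hL₁ L hLL1
  -- the operators
  have hKC : ∀ p, 0 < p → p ≤ 1 → KerBdd (GC (crv p L)) (1 / (2 * (4 / 5 * p))) := fun p h1 h2 =>
    hKB.kC (crv p L) (4 / 5 * p) (by positivity) (hGEO.conts p L h1 h2 hL0)
      (fun s s' => hGEO.low p L s s' h1 h2 hL0)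
  have hTex : ∀ p : ℝ, ∃ T : X →L[ℝ] X, 0 < p → p ≤ 1 →
      ∀ f h : X, ⟪T f, h⟫_ℝ = Bil (GC (crv p L)) f h := by
    intro p
    by_cases hp : 0 < p ∧ p ≤ 1
    · obtain ⟨T, -, hT⟩ := hOP _ _ (hKC p hp.1 hp.2)
      exact ⟨T, fun _ _ => hT⟩
    · exact ⟨0, fun h1 h2 => absurd ⟨h1, h2⟩ hp⟩
  choose T hT using hTex
  obtain ⟨S, -, hS⟩ := hOP _ _ hKB.kS
  have hJs := J_symm
  have hcomp : ∀ p, 0 < p → p ≤ 1 → IsCompactOperator (T p - S) := by
    intro p h1 h2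
    refine hHSC (fun s s' => GC (crv p L) s s' - GS s s') ?_ (hEHS.eC p L h1 h2 hL0) _ ?_
    · exact (hKC p h1 h2).meas.sub hKB.kS.meas
    · intro f h
      rw [ContinuousLinearMap.sub_apply, inner_sub_left, hT p h1 h2, hS]
      unfold Bil
      rw [← integral_sub ((hKC p h1 h2).int _ _ (Lp.memLp f) (Lp.memLp h))
        (hKB.kS.int _ _ (Lp.memLp f) (Lp.memLp h))]
      refine integral_congr_ae (Eventually.of_forall fun z => ?_)
      simp only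
      ring
  have hSle : ∀ f : X, ⟪S f, f⟫_ℝ ≤ 1 / 2 * ‖f‖ ^ 2 := by
    intro f
    rw [hS, norm_X]
    exact hTENT.pos _ (Lp.memLp f)
  have hTs : ∀ p, 0 < p → p ≤ 1 → ∀ f h : X, ⟪T p f, h⟫_ℝ = ⟪f, T p h⟫_ℝ := fun p h1 h2 =>
    T_symm (GC_comm _) (hT p h1 h2)
  have hcontT : ContinuousOn T (Icc p₀ 1) := by
    rw [Metric.continuousOn_iff]
    intro p hp ε hε
    obtain ⟨d, hd, hd2⟩ := hCONT L hL0 p₀ hp₀ p hp (ε / 2) (by linarith)
    refine ⟨d, hd, fun p' hp' hdist => ?_⟩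
    rw [dist_eq_norm]
    have h1 : ‖T p' - T p‖ ≤ ε / 2 := by
      refine ContinuousLinearMap.opNorm_le_bound _ (by linarith) fun f => ?_
      have h2 := hd2 p' hp' (by rwa [Real.dist_eq] at hdist) f ((T p' - T p) f : X) (Lp.memLp f)
        (Lp.memLp _)
      rw [← hT p' (hp₀.trans_le hp'.1) hp'.2, ← hT p (hp₀.trans_le hp.1) hp.2, ← inner_sub_left,
        ← ContinuousLinearMap.sub_apply, ← norm_X, ← norm_X, Real.sqrt_sq (norm_nonneg _),
        Real.sqrt_sq (norm_nonneg _), real_inner_self_eq_norm_sq, abs_of_nonneg (sq_nonneg _)] at h2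
      by_cases h0 : ‖(T p' - T p) f‖ = 0
      · rw [h0]; positivity
      · have h3 : 0 < ‖(T p' - T p) f‖ := lt_of_le_of_ne (norm_nonneg _) (Ne.symm h0)
        nlinarith
    linarith
  have hcontcut : ∀ e : ℝ, e * e = 1 → ContinuousOn (fun p => cut J e (T p)) (Icc p₀ 1) := by
    intro e he
    rw [Metric.continuousOn_iff] at hcontT ⊢
    intro p hp ε hε
    obtain ⟨d, hd, hd2⟩ := hcontT p hp ε hε
    refine ⟨d, hd, fun p' hp' hdist => ?_⟩
    refine lt_of_le_of_lt ?_ (hd2 p' hp' hdist)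
    rw [dist_eq_norm, dist_eq_norm, ← cut_sub]
    exact cut_norm he J_J J_symm _
  have hm : (-1 : ℝ) * (-1) = 1 := by norm_num
  have ho : (1 : ℝ) * 1 = 1 := by norm_num
  have hodd : ∀ {f : ℝ → ℝ}, (∀ s, f (-s) = -f s) → ∀ s, f (-s) = (-1) * f s := by
    intro f h s; rw [h, neg_one_mul]
  have heven : ∀ {f : ℝ → ℝ}, (∀ s, f (-s) = f s) → ∀ s, f (-s) = 1 * f s := by
    intro f h s; rw [h, one_mul]
  obtain ⟨p, hp, lam, hlam, ⟨f, hf0, hf⟩, ⟨g, hg0, hg⟩⟩ := hCROSS X p₀ 1 hp₀1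
    (fun p => cut J (-1) (T p)) (fun p => cut J 1 (T p)) (fun _ => cut J (-1) S)
    (fun _ => cut J 1 S) (fun p => cut J (-1) (T p - S)) (fun p => cut J 1 (T p - S))
    (hcontcut _ hm) (hcontcut _ ho) (by
      intro p hp
      have hp0 : 0 < p := hp₀.trans_le hp.1
      refine ⟨cut_symm _ J_symm (hTs p hp0 hp.2), cut_symm _ J_symm (hTs p hp0 hp.2), ?_, ?_,
        cut_compact _ (hcomp p hp0 hp.2), cut_compact _ (hcomp p hp0 hp.2), ?_, ?_, ?_⟩
      · rw [← cut_add, add_sub_cancel]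
      · rw [← cut_add, add_sub_cancel]
      · exact cut_bound hm J_J J_symm (by norm_num) (fun f _ => hSle f)
      · exact cut_bound ho J_J J_symm (by norm_num) (fun f _ => hSle f)
      · obtain ⟨f, hf, hfo, hfl⟩ := hL₂ L hLL2 p hp
        refine ⟨hf.toLp f, ?_⟩
        rw [cut_of_eig hm J_symm _ (J_toLp hf (hodd hfo)), form_toLp (hT p hp0 hp.2) hf hf,
          norm_toLp]
        exact hfl)
    (by
      obtain ⟨g, hg, hg2⟩ := hL₃ L hLL3
      refine ⟨ν + δ, ⟨Pr J 1 (hg.toLp g), ?_⟩, ?_⟩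
      · intro f hf
        have h1 : ⟪Pr J 1 f, hg.toLp g⟫_ℝ = 0 := by rw [Pr_symm _ J_symm, hf]
        obtain ⟨F, hF, hF2, hF3⟩ := exists_rep ho (J_Pr (J := J) ho J_J f)
        have h2 : ∫ s, F s * g s = 0 := by
          rw [← h1, inner_X]
          refine integral_congr_ae ?_
          filter_upwards [hF3, hg.coeFn_toLp] with s hs1 hs2
          rw [hs1, hs2]
        have h3 := hg2 F hF (fun s => by rw [hF2, one_mul]) h2
        rw [cut_form _ J_symm, hT 1 one_pos le_rfl, Bil_congr hF3 hF3]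
        refine h3.trans ?_
        rw [← N_congr hF3, ← norm_X]
        refine mul_le_mul_of_nonneg_left ?_ (by linarith)
        exact pow_le_pow_left₀ (norm_nonneg _) (Pr_norm ho J_J J_symm f) 2
      · obtain ⟨f, hf, hfo, hfl⟩ := hL₄ L hLL4
        refine ⟨hf.toLp f, ?_⟩
        rw [cut_of_eig hm J_symm _ (J_toLp hf (hodd hfo)), form_toLp (hT 1 one_pos le_rfl) hf hf,
          norm_toLp]
        have h1 : ν + δ = Bil (GC bnd) v v - δ := by rw [hvμ, hδ]; ring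
        rw [h1]
        exact hfl)
    (by
      refine ⟨1 / (2 * √(9 / 10)), 1 - 1 / 10, ?_, ?_, hf₁.toLp f₁, hf₂.toLp f₂, ?_, ?_⟩
      · have h1 : (9 / 10 : ℝ) ≤ √(9 / 10) := by
          apply Real.le_sqrt_of_sq_le
          norm_num
        rw [div_lt_iff₀ (by positivity)]
        linarith
      · refine cut_bound hm J_J J_symm (by positivity) ?_
        refine form_parity (hT p₀ hp₀ hp₀1.le) hm ?_
        intro F hF hF2
        exact hA p₀ L hp₀ hp₀1.le hL0 F hF (fun s => by rw [hF2, neg_one_mul])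
      · rw [LinearIndependent.pair_iff]
        intro x y hxy
        apply hind
        have hm1 : MemLp (fun s => x * f₁ s + y * f₂ s) 2 volume :=
          (hf₁.const_mul x).add (hf₂.const_mul y)
        have h1 : hm1.toLp _ = x • hf₁.toLp f₁ + y • hf₂.toLp f₂ := rfl
        rw [← norm_toLp hm1, h1, hxy]
        simp
      · intro x y
        have hm1 : MemLp (fun s => x * f₁ s + y * f₂ s) 2 volume :=
          (hf₁.const_mul x).add (hf₂.const_mul y)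
        have h1 : x • hf₁.toLp f₁ + y • hf₂.toLp f₂ = hm1.toLp _ := rfl
        rw [h1, norm_toLp hm1, cut_of_eig ho J_symm _ (J_toLp hm1 (fun s => by
          rw [he₁, he₂, one_mul])), form_toLp (hT p₀ hp₀ hp₀1.le) hm1 hm1]
        exact hform x y)
  have hp0 : 0 < p := hp₀.trans_le hp.1
  have hlam0 : lam ≠ 0 := by linarith
  have hGr : ∀ s s', GC (crv p L) (-s) (-s') = GC (crv p L) s s' := by
    intro s s'
    unfold GC
    rw [hGEO.refl p L s s' hp0 hp.2 hL0]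
  have hTJ := T_J hGr (hT p hp0 hp.2)
  obtain ⟨hf1, hf2⟩ := eig_of_cut hm J_J hTJ hlam0 hf
  obtain ⟨hg1, hg2⟩ := eig_of_cut ho J_J hTJ hlam0 hg
  refine ⟨p, L, lam, hp0, hp.2, hL0, hlam, f, g, Lp.memLp f, Lp.memLp g, ?_, ?_, ?_, ?_, ?_⟩
  · rw [← norm_X]; positivity
  · rw [← norm_X]; positivity
  · rw [← inner_X]; exact orth J_symm hf1 hg1
  · intro h hh
    have h1 := hT p hp0 hp.2 f (hh.toLp h)
    rw [Bil_congr (EventuallyEq.refl _ _) hh.coeFn_toLp, hf2, real_inner_smul_left, inner_X] at h1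
    rw [← h1]
    congr 1
    refine integral_congr_ae ?_
    filter_upwards [hh.coeFn_toLp] with s hs
    rw [hs]
  · intro h hh
    have h1 := hT p hp0 hp.2 g (hh.toLp h)
    rw [Bil_congr (EventuallyEq.refl _ _) hh.coeFn_toLp, hg2, real_inner_smul_left, inner_X] at h1
    rw [← h1]
    congr 1
    refine integral_congr_ae ?_
    filter_upwards [hh.coeFn_toLp] with s hs
    rw [hs]

end Pool.Agent.Helper94.LK.ASMPart
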